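import Pool.Agent.Helper76_MWFE.CL1
import Pool.Agent.Helper29_MWFE.CL0

/-! Squad MWFE, row BLN (helper90, with tools of helper76 and helper29), problem MP_23468a_al -/

set_option autoImplicit false

namespace Pool.Agent.MWFE.H90

open Pool.Agent.Helper14_MV Pool.Agent.Helper2_MV Pool.Agent.MVD
open Pool.Agent.MWE (Can XX fxy dxy dx dy up cp L4 pr Xs xl isx Fs nd nr)
open Pool.Agent.MWGR (cb)
open Pool.Agent.MWFE.H76 (bw_cons bw_app bw_congr up_eq up_ne up_self split_up cb_split nodup_of)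

/-- the normal form of a block -/
def nf (z v1 v2 i0 i1 i2 : ℕ) (T : List ℕ) : List ℕ :=
  List.replicate i0 z ++ v1 :: (List.replicate i1 z ++ v2 :: (List.replicate i2 z ++ T))

/-- insertion of `z^n` between the two tokens -/
theorem ins1 (n : ℕ) (β : FIC) (hz : Hz n β) (p T : List ℕ) (z v1 v2 i0 i1 i2 : ℕ)
    (hi0 : 1 ≤ i0) (hi2 : 1 ≤ i2) (h1 : v1 ∈ T) (h2 : v2 ∈ T) :
    RR β (p ++ nf z v1 v2 i0 i1 i2 T) (p ++ nf z v1 v2 i0 (i1 + n) i2 T) := by
  obtain ⟨a, rfl⟩ : ∃ a, i0 = a + 1 := ⟨i0 - 1, by omega⟩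
  obtain ⟨b, rfl⟩ : ∃ b, i2 = b + 1 := ⟨i2 - 1, by omega⟩
  have e1 : ∀ k, p ++ nf z v1 v2 (a + 1) k (b + 1) T =
      (p ++ List.replicate a z) ++ z :: ((v1 :: List.replicate k z) ++
        ([v2] ++ z :: (List.replicate b z ++ T))) := by
    intro k
    unfold nf
    rw [List.replicate_succ' (n := a), List.replicate_succ (n := b)]
    simp only [List.append_assoc, List.cons_append, List.nil_append]
  have e2 : p ++ nf z v1 v2 (a + 1) (i1 + n) (b + 1) T =
      (p ++ List.replicate a z) ++ z :: ((v1 :: List.replicate i1 z) ++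
        (List.replicate n z ++ ([v2] ++ z :: (List.replicate b z ++ T)))) := by
    rw [e1, List.replicate_add]
    simp only [List.append_assoc, List.cons_append, List.nil_append]
  rw [e2, e1 i1]
  apply hz.it
  intro u hu
  have c1 := List.count_pos_iff.2 h1
  have c2 := List.count_pos_iff.2 h2
  have hu' : u = v1 ∨ u = z ∨ u = v2 := by
    rcases List.mem_append.1 hu with h | h
    · rcases List.mem_cons.1 h with h | h
      · exact Or.inl h
      · exact Or.inr (Or.inl (List.eq_of_mem_replicate h))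
    · exact Or.inr (Or.inr (List.mem_singleton.1 h))
  rcases hu' with rfl | rfl | rfl
  · simp only [List.count_append, List.count_cons]
    simp only [beq_self_eq_true, if_true]
    omega
  · simp only [List.count_append, List.count_cons]
    simp only [beq_self_eq_true, if_true]
    omega
  · simp only [List.count_append, List.count_cons]
    simp only [beq_self_eq_true, if_true]
    omega

/-- the block with the two tokens is determined by the labels and the total number -/
theorem mid (cro : CroStmt) (n : ℕ) (β : FIC) (hz : Hz n β)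
    (lqr : (∀ i j i' j', i ≡ i' [MOD n] → j ≡ j' [MOD n] → Lq n β i j → Lq n β i' j') ∧
      ∀ i j c, Lq n β i j ↔ Lq n β (i + c) (j + c))
    (p T : List ℕ) (z v1 v2 i0 i1 i2 j0 j1 j2 : ℕ)
    (hi0 : 1 ≤ i0) (hi2 : 1 ≤ i2) (hj0 : 1 ≤ j0) (hj2 : 1 ≤ j2) (h1 : v1 ∈ T) (h2 : v2 ∈ T)
    (l1 : Lq n β i0 j0) (l2 : Lq n β (i0 + i1) (j0 + j1))
    (ht : i0 + i1 + i2 ≡ j0 + j1 + j2 [MOD n]) :
    RR β (p ++ nf z v1 v2 i0 i1 i2 T) (p ++ nf z v1 v2 j0 j1 j2 T) := by
  have hn := hz.n2
  refine β.trans (ins1 n β hz p T z v1 v2 i0 i1 i2 hi0 hi2 h1 h2) ?_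
  refine β.trans ?_ (RR.symm (ins1 n β hz p T z v1 v2 j0 j1 j2 hj0 hj2 h1 h2))
  obtain ⟨Ta, Tb, hT1⟩ := List.append_of_mem h1
  obtain ⟨Tc, Td, hT2⟩ := List.append_of_mem h2
  obtain ⟨k, rfl⟩ : ∃ k, n = k + 1 := ⟨n - 1, by omega⟩
  set l := i0 + i1 + (k + 1) + k * j0 with hl
  have hl1 : j0 + l = (i0 + i1) + (k + 1) * (1 + j0) := by
    rw [hl]
    ring
  have hl2 : j0 + l ≡ i0 + i1 [MOD (k + 1)] := by
    rw [hl1]
    have h0 : (k + 1) * (1 + j0) ≡ 0 [MOD (k + 1)] :=
      (Nat.modEq_zero_iff_dvd).2 (Dvd.intro _ rfl)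
    exact Nat.ModEq.add_left (i0 + i1) h0
  have e1 : ∀ a b : ℕ, p ++ nf z v1 v2 a b i2 T =
      p ++ (List.replicate a z ++ v1 :: (List.replicate b z ++
        ((v2 :: (List.replicate i2 z ++ Ta)) ++ v1 :: Tb))) := by
    intro a b
    unfold nf
    rw [hT1]
    simp only [List.append_assoc, List.cons_append]
  have e2 : ∀ a b : ℕ, p ++ nf z v1 v2 j0 a b T =
      (p ++ (List.replicate j0 z ++ [v1])) ++ (List.replicate a z ++ v2 :: (List.replicate b z ++
        (Tc ++ v2 :: Td))) := by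
    intro a b
    unfold nf
    rw [hT2]
    simp only [List.append_assoc, List.cons_append, List.nil_append]
  have s1 : RR β (p ++ nf z v1 v2 i0 (i1 + (k + 1)) i2 T) (p ++ nf z v1 v2 j0 l i2 T) := by
    rw [e1, e1]
    apply cro (k + 1) β i0 j0 l1
    · exact Nat.ModEq.refl _
    · exact Nat.ModEq.refl _
    · refine Nat.ModEq.trans ?_ hl2.symm
      rw [← Nat.add_assoc]
      exact Nat.add_modEq_right
    · exact hi0
    · exact hj0
    · omega
    · rw [hl]
      omega
  refine β.trans s1 ?_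
  rw [e2, e2]
  have l3 : Lq (k + 1) β l (j1 + (k + 1)) := by
    apply (lqr.2 l (j1 + (k + 1)) j0).2
    apply lqr.1 (i0 + i1) (j0 + j1) _ _ _ _ l2
    · rw [Nat.add_comm l j0]
      exact hl2.symm
    · have : j1 + (k + 1) + j0 = j0 + j1 + (k + 1) := by omega
      rw [this]
      exact Nat.add_modEq_right.symm
  apply cro (k + 1) β l (j1 + (k + 1)) l3
  · exact Nat.ModEq.refl _
  · exact Nat.ModEq.refl _
  · apply Nat.ModEq.add_left_cancel' j0
    have a1 : j0 + (l + i2) ≡ i0 + i1 + i2 [MOD (k + 1)] := by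
      rw [← Nat.add_assoc]
      exact hl2.add_right i2
    have a2 : j0 + (j1 + (k + 1) + j2) = (j0 + j1 + j2) + (k + 1) := by omega
    rw [a2]
    exact (a1.trans ht).trans Nat.add_modEq_right.symm
  · rw [hl]
    omega
  · omega
  · exact hi2
  · exact hj2

/-- the filter -/
def fz (z : ℕ) : ℕ → Bool := fun a => decide (a = 0 ∨ a = 3 ∨ a = z)

theorem rep_of (z : ℕ) (A : List ℕ) (h : ∀ a ∈ A, a = z) : A = List.replicate (A.count z) z := by
  have h1 : A = List.replicate A.length z := List.eq_replicate_iff.2 ⟨rfl, h⟩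
  have h2 : A.count z = A.length := by
    conv_lhs => rw [h1]
    rw [List.count_replicate_self]
  rw [h2]
  exact h1

theorem filt (z : ℕ) (A : List ℕ) (h : fxy A = []) :
    A.filter (fz z) = List.replicate (A.count z) z := by
  have h1 : ∀ a ∈ A.filter (fz z), a = z := by
    intro a ha
    obtain ⟨h2, h3⟩ := List.mem_filter.1 ha
    have h4 : a = 0 ∨ a = 3 ∨ a = z := of_decide_eq_true h3
    rcases h4 with h4 | h4 | h4
    · exfalso
      have : a ∈ fxy A := List.mem_filter.2 ⟨h2, decide_eq_true (Or.inl h4)⟩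
      rw [h] at this
      exact List.not_mem_nil this
    · exfalso
      have : a ∈ fxy A := List.mem_filter.2 ⟨h2, decide_eq_true (Or.inr h4)⟩
      rw [h] at this
      exact List.not_mem_nil this
    · exact h4
  have h5 := rep_of z _ h1
  rw [h5]
  congr 1
  have hp : fz z z = true := decide_eq_true (Or.inr (Or.inr rfl))
  rw [Pool.Agent.MWFE.H29.cf, if_pos hp]

/-- the structure of a block -/
theorem dec (z v1 v2 : ℕ) (D : List ℕ) (hv : v1 ≠ v2) (h1 : v1 = 0 ∨ v1 = 3) (h2 : v2 = 0 ∨ v2 = 3)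
    (hz0 : z ≠ 0) (hz3 : z ≠ 3) (h : fxy D = [v1, v2]) :
    ∃ i0 i1 i2, D.filter (fz z) = nf z v1 v2 i0 i1 i2 [] ∧ cb D z v1 = i0 ∧ cb D z v2 = i0 + i1 ∧
      D.count z = i0 + i1 + i2 := by
  unfold fxy at h
  obtain ⟨A, C, hD, hA, -, hC⟩ := List.filter_eq_cons_iff.1 h
  obtain ⟨A', C', hD', hA', -, hC'⟩ := List.filter_eq_cons_iff.1 hC
  have nA : fxy A = [] := List.filter_eq_nil_iff.2 hA
  have nA' : fxy A' = [] := List.filter_eq_nil_iff.2 hA'
  have nC' : fxy C' = [] := hC'
  have hmem : ∀ (E : List ℕ), fxy E = [] → ∀ v, (v = 0 ∨ v = 3) → v ∉ E := by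
    intro E hE v hv hvE
    have : v ∈ fxy E := List.mem_filter.2 ⟨hvE, decide_eq_true hv⟩
    rw [hE] at this
    exact List.not_mem_nil this
  have hz1 : v1 ≠ z := by
    rcases h1 with h1 | h1 <;> rw [h1]
    · exact Ne.symm hz0
    · exact Ne.symm hz3
  have hz2 : v2 ≠ z := by
    rcases h2 with h2 | h2 <;> rw [h2]
    · exact Ne.symm hz0
    · exact Ne.symm hz3
  have p1 : fz z v1 = true := by
    apply decide_eq_true
    rcases h1 with h | h
    · exact Or.inl h
    · exact Or.inr (Or.inl h)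
  have p2 : fz z v2 = true := by
    apply decide_eq_true
    rcases h2 with h | h
    · exact Or.inl h
    · exact Or.inr (Or.inl h)
  refine ⟨A.count z, A'.count z, C'.count z, ?_, ?_, ?_, ?_⟩
  · rw [hD, hD', List.filter_append, List.filter_cons_of_pos p1, List.filter_append,
      List.filter_cons_of_pos p2, filt z A nA, filt z A' nA', filt z C' nC']
    unfold nf
    rw [List.append_nil]
  · rw [hD]
    exact cb_split _ _ _ _ (hmem A nA v1 h1)
  · have e : D = (A ++ v1 :: A') ++ v2 :: C' := by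
      rw [hD, hD']
      simp only [List.append_assoc, List.cons_append]
    rw [e, cb_split]
    · rw [List.count_append, List.count_cons_of_ne hz1]
    · intro hh
      rcases List.mem_append.1 hh with hh | hh
      · exact hmem A nA v2 h2 hh
      · rcases List.mem_cons.1 hh with hh | hh
        · exact hv hh.symm
        · exact hmem A' nA' v2 h2 hh
  · rw [hD, hD', List.count_append, List.count_cons_of_ne hz1, List.count_append,
      List.count_cons_of_ne hz2]
    omega

theorem nf_app (z v1 v2 i0 i1 i2 : ℕ) (T T' : List ℕ) :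
    nf z v1 v2 i0 i1 i2 T ++ T' = nf z v1 v2 i0 i1 i2 (T ++ T') := by
  unfold nf
  simp only [List.append_assoc, List.cons_append]

theorem up_up (B : ℕ → List ℕ) (r : ℕ) (D D' : List ℕ) : up (up B r D) r D' = up B r D' := by
  funext q
  unfold up
  split_ifs <;> rfl

/-- the block is equivalent to its normal form -/
theorem norm (pmz : PmzStmt) (n : ℕ) (β : FIC) (m : ℕ) (R c : List ℕ) (B : ℕ → List ℕ)
    (e : List ℕ) (hz : Hz n β) (hc : Can m c) (hR : R.Perm (List.range (m + 2)))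
    (hb : Bfr R 0 1) (G : Bfz m R c B e) (F : List ℕ)
    (hF : F.Perm ((B 0).filter (fun a => !(fz (3 * m + 1)) a))) (N : List ℕ)
    (hN : (B 0).filter (fz (3 * m + 1)) = N) :
    RR β (Bw R B ++ e) (Bw R (up B 0 (N ++ F)) ++ e) := by
  apply pmz n β m R c B e hz hc hR hb G (N ++ F)
  · rw [← hN]
    exact (List.Perm.append_left _ hF).trans (List.filter_append_perm (fz (3 * m + 1)) (B 0))
  · change (N ++ F).filter (fz (3 * m + 1)) = (B 0).filter (fz (3 * m + 1))
    rw [List.filter_append, ← hN, List.filter_filter]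
    have e1 : F.filter (fz (3 * m + 1)) = [] := by
      rw [List.filter_eq_nil_iff]
      intro a ha
      have h1 := (List.mem_filter.1 (hF.mem_iff.1 ha)).2
      intro h2
      rw [h2] at h1
      exact absurd h1 (by decide)
    rw [e1, List.append_nil]
    congr 1
    funext a
    rw [Bool.and_self]

theorem bln (_pwl : PwlStmt) (_fil : FilStmt) (cro : CroStmt) (lqr : LqrStmt) (upz : UpzStmt)
    (pmz : PmzStmt) : BlnStmt := by
  intro n β m R c B e hz hc hR hb G D sD hfD hdz hlq htot htB htD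
  have hnd := nodup_of m R hR
  set z := 3 * m + 1 with hzz
  have hz0 : z ≠ 0 := by omega
  have hz3 : z ≠ 3 := by omega
  -- the order of x, y
  have hX : XX (fxy (B 0)) := by
    apply Pool.Agent.MWFE.H29.xx_of
    · intro a ha
      exact of_decide_eq_true (List.mem_filter.1 ha).2
    · unfold fxy
      rw [Pool.Agent.MWFE.H29.cf, if_pos (decide_eq_true (Or.inl rfl))]
      exact G.x0
    · unfold fxy
      rw [Pool.Agent.MWFE.H29.cf, if_pos (decide_eq_true (Or.inr rfl))]
      exact G.y0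
  obtain ⟨v1, v2, hv12, hv, h1, h2⟩ : ∃ v1 v2, fxy (B 0) = [v1, v2] ∧ v1 ≠ v2 ∧
      (v1 = 0 ∨ v1 = 3) ∧ (v2 = 0 ∨ v2 = 3) := by
    rcases hX with h | h
    · exact ⟨0, 3, h, by decide, Or.inl rfl, Or.inr rfl⟩
    · exact ⟨3, 0, h, by decide, Or.inr rfl, Or.inl rfl⟩
  obtain ⟨i0, i1, i2, hN, hc1, hc2, hct⟩ := dec z v1 v2 (B 0) hv h1 h2 hz0 hz3 hv12
  obtain ⟨j0, j1, j2, hN', hd1, hd2, hdt⟩ := dec z v1 v2 D hv h1 h2 hz0 hz3 (hfD.trans hv12)
  have tB1 := htB v1 h1
  have tB2 := htB v2 h2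
  have tD1 := htD v1 h1
  have tD2 := htD v2 h2
  rw [hc1, hct] at tB1
  rw [hc2, hct] at tB2
  rw [hd1, hdt] at tD1
  rw [hd2, hdt] at tD2
  have lq1 := hlq v1 h1
  have lq2 := hlq v2 h2
  rw [hc1, hd1] at lq1
  rw [hc2, hd2] at lq2
  rw [hct, hdt] at htot
  have GD : Bfz m R c (up B 0 D) e :=
    ((upz m R c B e hR).2.2 D sD hdz (by rw [hdt]; omega)).2 G
  set F := (B 0).filter (fun a => !(fz z) a) with hF
  have s1 : RR β (Bw R B ++ e) (Bw R (up B 0 (nf z v1 v2 i0 i1 i2 [] ++ F)) ++ e) :=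
    norm pmz n β m R c B e hz hc hR hb G F (List.Perm.refl _) _ hN
  have hFD : F.Perm (D.filter (fun a => !(fz z) a)) := by
    have k1 : ∀ E : List ℕ, E.filter (fun a => !(fz z) a) =
        (dz z E).filter (fun a => !(fz z) a) := by
      intro E
      unfold dz
      rw [List.filter_filter]
      congr 1
      funext a
      by_cases ha : a = z
      · have : fz z a = true := decide_eq_true (Or.inr (Or.inr ha))
        rw [this]
        rfl
      · have : decide (a ≠ z) = true := decide_eq_true ha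
        rw [this, Bool.and_true]
    rw [hF, k1 (B 0), k1 D]
    exact (hdz.filter _).symm
  have s2 : RR β (Bw R (up B 0 D) ++ e) (Bw R (up B 0 (nf z v1 v2 j0 j1 j2 [] ++ F)) ++ e) := by
    have := norm pmz n β m R c (up B 0 D) e hz hc hR hb GD F (by rw [up_eq]; exact hFD)
      (nf z v1 v2 j0 j1 j2 []) (by rw [up_eq]; exact hN')
    rw [up_up] at this
    exact this
  refine β.trans s1 (β.trans ?_ (RR.symm s2))
  -- the decomposition of R
  obtain ⟨Ra, Rb, Rc, hRR⟩ := hb
  have n1 : (0 : ℕ) ∉ Ra := by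
    intro h
    rw [hRR] at hnd
    exact (List.nodup_append.1 hnd).2.2 0 h 0 List.mem_cons_self rfl
  have n2 : (0 : ℕ) ∉ Rb ++ 1 :: Rc := by
    intro h
    rw [hRR] at hnd
    exact (List.nodup_cons.1 (List.nodup_append.1 hnd).2.1).1 h
  have ew : ∀ k0 k1 k2 : ℕ, Bw R (up B 0 (nf z v1 v2 k0 k1 k2 [] ++ F)) ++ e =
      Bw Ra B ++ nf z v1 v2 k0 k1 k2 (F ++ ((3 * 0 + 2) :: (Bw (Rb ++ 1 :: Rc) B ++ e))) := by
    intro k0 k1 k2
    rw [hRR, split_up Ra (Rb ++ 1 :: Rc) 0 B _ e n1 n2, nf_app, nf_app]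
    simp only [List.nil_append, List.append_assoc]
  rw [ew, ew]
  have hmem : ∀ v, v ∈ B 1 → v ∈ F ++ ((3 * 0 + 2) :: (Bw (Rb ++ 1 :: Rc) B ++ e)) := by
    intro v hv
    apply List.mem_append_right
    apply List.mem_cons_of_mem
    apply List.mem_append_left
    rw [bw_app, bw_cons]
    exact List.mem_append_right _ (List.mem_append_left _ hv)
  have hv1 : v1 ∈ B 1 := by
    apply List.count_pos_iff.1
    rcases h1 with h | h <;> rw [h]
    · rw [G.x1]; exact one_pos
    · rw [G.y1]; exact one_pos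
  have hv2 : v2 ∈ B 1 := by
    apply List.count_pos_iff.1
    rcases h2 with h | h <;> rw [h]
    · rw [G.x1]; exact one_pos
    · rw [G.y1]; exact one_pos
  obtain ⟨-, -, -, q4, q5⟩ := lqr n β hz
  exact mid cro n β hz ⟨q4, q5⟩ (Bw Ra B) _ z v1 v2 i0 i1 i2 j0 j1 j2 tB1.1 (by omega)
    tD1.1 (by omega) (hmem v1 hv1) (hmem v2 hv2) lq1 lq2 htot

end Pool.Agent.MWFE.H90
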