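import Pool.Agent.Helper76_MWFE.CL1

/-! Squad MWFE, row CLP (helper90, with the tools of helper76), problem MP_23468a_al -/

set_option autoImplicit false

namespace Pool.Agent.MWFE.H90

open Pool.Agent.Helper14_MV Pool.Agent.Helper2_MV Pool.Agent.MVD
open Pool.Agent.MWE (Can XX fxy dxy dx dy up cp L4 pr Xs xl isx Fs nd nr)
open Pool.Agent.MWGR (cb)
open Pool.Agent.MWFE.H76 (bw_cons bw_app up_eq up_ne up_self split_up pz_ne pz_up pz_sfr step
  nodup_of bfr_asym)

theorem clp (phx : PhxStmt) (bpx : BpxStmt) (baz : BazStmt) (hwz : HwzStmt) : ClpStmt := by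
  intro n β m R c X B e st hX hB he hr
  have hnd := nodup_of m R st.pR
  set A := pz n (3 * m + 1) B with hA
  have G : Bz m R c A e := baz n β m R c X A e st.hz st.can st.pR st.b01 hX
    (pz_sfr n m B hB) he hr
  have hm1 : (1 : ℕ) ∈ R := st.pR.mem_iff.2 (List.mem_range.2 (by omega))
  obtain ⟨h1, hB1, -, -, hcB, -⟩ := st.hb X B e hX hB he hr
  have hA1 : A 1 = 0 :: (h1 ++ [3]) := by rw [hA, pz_ne _ _ _ _ one_ne_zero, hB1]
  have hA1c : ∀ a ∈ c, a ∈ A 1 := by
    intro a ha
    rw [hA1]
    exact List.mem_cons_of_mem _ (List.mem_append_left _ (hcB a ha))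
  have hmA : ∀ r ∈ R, ∀ u ∈ A r, 2 ≤ (Bw R A ++ e).count u := by
    intro r hr1 u hu
    have hu2 : u ∈ Bw R A := by
      unfold Bw
      exact List.mem_flatMap.2 ⟨r, hr1, List.mem_append_left _ hu⟩
    exact G.mu u (List.mem_append_left _ hu2) (G.sf r u hu)
  refine ⟨?_, ?_⟩
  · intro r hrR hr0 hr1 α Y Y' γ Λ hBr hp hQ hRt
    obtain ⟨d, rfl⟩ : ∃ d, r = d + 2 := ⟨r - 2, by omega⟩
    have hd : d < m := by
      have := List.mem_range.1 (st.pR.mem_iff.1 hrR)
      omega
    have hAr : A (d + 2) = α ++ (Y ++ γ) := by rw [hA, pz_ne _ _ _ _ hr0, hBr]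
    rw [pz_up _ _ _ _ _ hr0, ← hA]
    refine β.trans hr ?_
    obtain ⟨R1, R2, hR⟩ := List.append_of_mem hrR
    have n1 : (d + 2) ∉ R1 := by
      intro h
      rw [hR] at hnd
      exact (List.nodup_append.1 hnd).2.2 (d + 2) h (d + 2) List.mem_cons_self rfl
    have n2 : (d + 2) ∉ R2 := by
      intro h
      rw [hR] at hnd
      exact (List.nodup_cons.1 (List.nodup_append.1 hnd).2.1).1 h
    have ew : Bw R A ++ e =
        (Bw R1 A ++ α) ++ (Y ++ (γ ++ (3 * (d + 2) + 2) :: (Bw R2 A ++ e))) := by
      conv_lhs => rw [← up_self A (d + 2), hR]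
      rw [split_up R1 R2 (d + 2) A _ e n1 n2, hAr]
      simp only [List.append_assoc, List.cons_append]
    have ew' : Bw R (up A (d + 2) (α ++ (Y' ++ γ))) ++ e =
        (Bw R1 A ++ α) ++ (Y' ++ (γ ++ (3 * (d + 2) + 2) :: (Bw R2 A ++ e))) := by
      conv_lhs => rw [hR]
      rw [split_up R1 R2 (d + 2) A _ e n1 n2]
      simp only [List.append_assoc, List.cons_append]
    have hYr : ∀ v ∈ Y, v ∈ A (d + 2) := by
      intro v hv
      rw [hAr]
      exact List.mem_append_right _ (List.mem_append_left _ hv)
    have hYw : ∀ v ∈ Y, v ∈ Bw R A ++ e := by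
      intro v hv
      rw [ew]
      exact List.mem_append_right _ (List.mem_append_left _ hv)
    -- the letters of Y
    have hlet : ∀ v ∈ Y, v = 3 * d + 1 ∨ v = 3 * m + 1 ∨ (v ∈ c ∧ v % 3 = 0 ∧ 6 ≤ v) := by
      intro v hv
      rcases G.ct v (hYw v hv) (G.sf (d + 2) v (hYr v hv)) with h | h | h | h
      · rw [h] at hv
        exact absurd (hYr 0 hv) (G.xo (d + 2) hrR hr0 hr1)
      · rw [h] at hv
        exact absurd (hYr 3 hv) (G.yo (d + 2) hrR hr0 hr1)
      · exact Or.inr (Or.inl h)
      · rcases st.can.lo v h with ⟨d', hd', h5⟩ | h5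
        · left
          have c1 := G.li d' hd' (d + 2) hrR
          have c2 := List.count_pos_iff.2 (hYr v hv)
          rw [h5, c1] at c2
          split_ifs at c2 with h6
          · rcases h6 with h6 | h6
            · exact absurd h6 hr1
            · omega
          · omega
        · exact Or.inr (Or.inr ⟨h, h5.1, h5.2.1⟩)
    have hc1 : (A (d + 2)).count (3 * d + 1) = 1 := by
      rw [G.li d hd (d + 2) hrR, if_pos (Or.inr rfl)]
    have hcY : ∀ v ∈ Y, v = 3 * d + 1 → Y.count v = 1 ∧ v ∉ γ := by
      intro v hv hl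
      subst hl
      have c2 := List.count_pos_iff.2 hv
      have c1 := hc1
      rw [hAr, List.count_append, List.count_append] at c1
      refine ⟨by omega, fun h => ?_⟩
      have c3 := List.count_pos_iff.2 h
      omega
    rw [ew', ew]
    refine step phx bpx n β st.hz _ _ Y Y' Λ hp hQ (fun v => v = 3 * d + 1) ?_ ?_ ?_ ?_
    · intro v hv hl
      exact (hcY v hv hl).1
    · intro v hv hl
      rw [← ew]
      apply hwz m R c A e G v (hYw v hv)
      rcases hlet v hv with h | h | h
      · exact absurd h hl
      · exact Or.inl h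
      · exact Or.inr h.2
    · intro v hv
      rw [← ew]
      exact hmA (d + 2) hrR v (hYr v hv)
    · intro v hv hl
      refine ⟨fun u _ hu => hu.trans hl.symm, fun h hh hhL => ?_⟩
      obtain ⟨hcv, hvg⟩ := hcY v hv hl
      have hvL : v ∈ Λ := (hQ v hcv).1
      have hz : 3 * m + 1 ∉ Λ := by
        intro hzL
        rcases hRt with ⟨a, b, hab⟩ | ⟨r', hr', hbf, a, b, hab⟩ | ⟨a, b, hab⟩
        · apply hvg
          rw [hab]
          exact List.mem_append_right _ (List.mem_append_left _ hvL)
        · have hvB : v ∈ B r' := by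
            rw [hab]
            exact List.mem_append_right _ (List.mem_append_left _ hvL)
          have hzB : 3 * m + 1 ∈ B r' := by
            rw [hab]
            exact List.mem_append_right _ (List.mem_append_left _ hzL)
          have hvA : v ∈ A r' := by
            by_cases h0 : r' = 0
            · rw [h0] at hvB ⊢
              rw [hA]
              unfold pz
              rw [up_eq]
              exact List.mem_append_right _ (List.mem_append_left _ hvB)
            · rw [hA, pz_ne _ _ _ _ h0]
              exact hvB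
          have c1 := G.li d hd r' hr'
          have c2 := List.count_pos_iff.2 hvA
          rw [hl, c1] at c2
          split_ifs at c2 with h6
          · rcases h6 with h6 | h6
            · rw [h6] at hzB
              apply G.z1 1 hm1 st.b01
              rw [hA, pz_ne _ _ _ _ one_ne_zero]
              exact hzB
            · rw [h6] at hbf
              exact bfr_asym R hnd (d + 2) (d + 2) hbf hbf
          · omega
        · apply G.le d hd
          rw [hab, ← hl]
          exact List.mem_append_right _ (List.mem_append_left _ hvL)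
      have hv1 : v ∈ A 1 := by
        apply List.count_pos_iff.1
        rw [hl, G.li d hd 1 hm1, if_pos (Or.inl rfl)]
        exact one_pos
      have hh1 : h ∈ A 1 := by
        rcases hlet h hh with h2 | h2 | h2
        · rw [h2, ← hl]
          exact hv1
        · rw [h2] at hhL
          exact absurd hhL hz
        · exact hA1c h h2.1
      have hmem : (1 : ℕ) ∈ R1 ∨ (1 : ℕ) ∈ R2 := by
        rw [hR] at hm1
        rcases List.mem_append.1 hm1 with h2 | h2
        · exact Or.inl h2
        · rcases List.mem_cons.1 h2 with h3 | h3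
          · exact absurd h3.symm hr1
          · exact Or.inr h3
      rcases hmem with h2 | h2
      · obtain ⟨R3, R4, hR34⟩ := List.append_of_mem h2
        refine ⟨A 1, Bw R3 A, (3 * 1 + 2) :: (Bw R4 A ++ α), Or.inl ?_, ?_, hv1, hh1⟩
        · rw [hR34, bw_app, bw_cons]
          simp only [List.append_assoc, List.cons_append]
        · intro u hu
          rw [← ew]
          exact hmA 1 hm1 u hu
      · obtain ⟨R3, R4, hR34⟩ := List.append_of_mem h2
        refine ⟨A 1, γ ++ (3 * (d + 2) + 2) :: Bw R3 A, (3 * 1 + 2) :: (Bw R4 A ++ e),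
          Or.inr ?_, ?_, hv1, hh1⟩
        · rw [hR34, bw_app, bw_cons]
          simp only [List.append_assoc, List.cons_append]
        · intro u hu
          rw [← ew]
          exact hmA 1 hm1 u hu
  · intro α Y Y' γ hee hp
    refine β.trans hr ?_
    have ew : Bw R A ++ e = (Bw R A ++ α) ++ (Y ++ γ) := by
      rw [hee, List.append_assoc]
    have ew' : Bw R A ++ (α ++ (Y' ++ γ)) = (Bw R A ++ α) ++ (Y' ++ γ) := by
      rw [List.append_assoc]
    rw [ew']
    have hYe : ∀ v ∈ Y, v ∈ e := by
      intro v hv
      rw [hee]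
      exact List.mem_append_right _ (List.mem_append_left _ hv)
    have key : ∀ v ∈ Y, Hw (Bw R A ++ e) v := by
      intro v hv
      have hvw : v ∈ Bw R A ++ e := List.mem_append_right _ (hYe v hv)
      apply hwz m R c A e G v hvw
      rcases G.ct v hvw (G.se v (hYe v hv)) with h | h | h | h
      · rw [h] at hv
        exact absurd (hYe 0 hv) G.xe
      · rw [h] at hv
        exact absurd (hYe 3 hv) G.ye
      · exact Or.inl h
      · rcases st.can.lo v h with ⟨d', hd', h5⟩ | h5
        · rw [h5] at hv
          exact absurd (hYe _ hv) (G.le d' hd')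
        · exact Or.inr ⟨h5.1, h5.2.1⟩
    rw [ew] at key ⊢
    exact phx n β st.hz _ _ Y Y' hp key

end Pool.Agent.MWFE.H90
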