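import Pool.Agent.MWFE.StmtsA

/-! Squad MWFE, row NEZ (helper90), problem MP_23468a_al -/

set_option autoImplicit false

namespace Pool.Agent.MWFE.H90

open Pool.Agent.Helper14_MV Pool.Agent.Helper2_MV Pool.Agent.MVD

/-- the substitution `2 ↦ 2 3` -/
def gz : ℕ → List ℕ := fun a => if a = 2 then [2, 3] else [a]

theorem gz_rep (k : ℕ) : (List.replicate k 0).flatMap gz = List.replicate k 0 := by
  induction k with
  | zero => rfl
  | succ k ih =>
    rw [List.replicate_succ, List.flatMap_cons, ih]
    rfl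

theorem gz2 (T : List ℕ) : (2 :: T).flatMap gz = 2 :: 3 :: T.flatMap gz := by
  rw [List.flatMap_cons]
  rfl

theorem nez (lcf : LcfStmt) (lqi : LqiStmt) (lq1 : Lq1Stmt) : NezStmt := by
  intro n β hz N N' N'' h1 h
  obtain ⟨M, rfl⟩ : ∃ M, N'' = M + 1 := ⟨N'' - 1, by omega⟩
  have hB : RR β (List.replicate N 0 ++ [2, 3])
      (List.replicate N' 0 ++ 2 :: 3 :: List.replicate (M + 1) 0) := by
    have := RR.sub gz h
    rw [List.flatMap_append, List.flatMap_append, gz2, gz2, gz_rep, gz_rep, gz_rep] at this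
    exact this
  have e1 : cw 1 (N + 1) = [0, 3, 0] ++ (List.replicate N 0 ++ [2, 3]) := by
    unfold cw
    rw [List.replicate_succ (n := N)]
    rfl
  have e2 : cw 2 N = [0, 0, 3] ++ (List.replicate N 0 ++ [2, 3]) := rfl
  have s1 : RR β (cw 1 (N + 1))
      ([0, 3, 0] ++ (List.replicate N' 0 ++ 2 :: 3 :: List.replicate (M + 1) 0)) := by
    rw [e1]
    exact RR.append (RR.refl _) hB
  have s2 : RR β ([0, 3, 0] ++ (List.replicate N' 0 ++ 2 :: 3 :: List.replicate (M + 1) 0))
      ([0, 0, 3] ++ (List.replicate N' 0 ++ 2 :: 3 :: List.replicate (M + 1) 0)) := by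
    have e3 : ∀ a b : ℕ, [0, a, b] ++
        (List.replicate N' 0 ++ 2 :: 3 :: List.replicate (M + 1) 0) =
        [0] ++ a :: b :: ((List.replicate N' 0 ++ [2]) ++ ([3, 0] ++ List.replicate M 0)) := by
      intro a b
      rw [List.replicate_succ (n := M)]
      simp only [List.append_assoc, List.cons_append, List.nil_append]
    rw [e3, e3]
    refine (lcf β hz.ff hz.zz [0] (List.replicate N' 0 ++ [2]) [3, 0] (List.replicate M 0) 3 0
      List.mem_cons_self (List.mem_cons_of_mem _ List.mem_cons_self)).1 ?_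
    intro d hd
    rcases List.mem_cons.1 hd with rfl | hd
    · simp only [List.count_append, List.count_cons, beq_self_eq_true, if_true]
      omega
    · rw [List.mem_singleton.1 hd]
      simp only [List.count_append, List.count_cons, beq_self_eq_true, if_true]
      omega
  have s3 : RR β ([0, 0, 3] ++ (List.replicate N' 0 ++ 2 :: 3 :: List.replicate (M + 1) 0))
      (cw 2 N) := by
    rw [e2]
    exact RR.append (RR.refl _) hB.symm
  exact lq1 n β hz 1 (lqi n β hz 1 (N + 1) 2 N (by omega) (by omega)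
    (β.trans s1 (β.trans s2 s3)))

end Pool.Agent.MWFE.H90
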