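import Pool.Agent.Helper76_MWFE.CL1
import Pool.Agent.Helper11_MWE.PLMb

/-! Squad MWFE, row PMZ (helper90), problem MP_23468a_al -/

set_option autoImplicit false

namespace Pool.Agent.MWFE.H90

open Pool.Agent.Helper14_MV Pool.Agent.Helper2_MV Pool.Agent.MVD
open Pool.Agent.MWE (Can XX fxy dxy dx dy up cp L4 pr Xs xl isx Fs nd nr)
open Pool.Agent.MWGR (cb)
open Pool.Agent.MWFE.H76 (bw_cons bw_app up_eq up_self split_up nodup_of)

theorem pmz (lcf : LcfStmt) (hhx : HhxStmt) (upz : UpzStmt) (hwz : HwzStmt) : PmzStmt := by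
  intro n β m R c B e hz hc hR hb G D hp hf
  have hnd := nodup_of m R hR
  have h0R : (0 : ℕ) ∈ R := hR.mem_iff.2 (List.mem_range.2 (by omega))
  have h1R : (1 : ℕ) ∈ R := hR.mem_iff.2 (List.mem_range.2 (by omega))
  obtain ⟨Ra, Rb, Rc, hRR⟩ := hb
  have n1 : (0 : ℕ) ∉ Ra := by
    intro h
    rw [hRR] at hnd
    exact (List.nodup_append.1 hnd).2.2 0 h 0 List.mem_cons_self rfl
  have n2 : (0 : ℕ) ∉ Rb ++ 1 :: Rc := by
    intro h
    rw [hRR] at hnd
    exact (List.nodup_cons.1 (List.nodup_append.1 hnd).2.1).1 h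
  have ew : ∀ (A C : List ℕ) (a b : ℕ), Bw R (up B 0 (A ++ a :: b :: C)) ++ e =
      (Bw Ra B ++ A) ++ a :: b :: ((C ++ (3 * 0 + 2) :: Bw Rb B) ++
        (B 1 ++ ((3 * 1 + 2) :: (Bw Rc B ++ e)))) := by
    intro A C a b
    rw [hRR, split_up Ra (Rb ++ 1 :: Rc) 0 B _ e n1 n2, bw_app, bw_cons]
    simp only [List.append_assoc, List.cons_append]
  apply Pool.Agent.MWE.H11.plm (fun a => decide (a = 0 ∨ a = 3 ∨ a = 3 * m + 1))
    (fun D => RR β (Bw R B ++ e) (Bw R (up B 0 D) ++ e)) (B 0) D hp.symm hf.symm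
  · intro A C a b hW _ _ hP hE
    refine β.trans hE ?_
    have G' : Bfz m R c (up B 0 (A ++ a :: b :: C)) e := ((upz m R c B e hR).1 0 _ hW).2 G
    have hle : ∀ u ∈ A ++ a :: b :: C, (u = 0 ∨ u = 3 ∨ u = 3 * m + 1) ∨
        (u ∈ c ∧ u % 3 = 0 ∧ 6 ≤ u) := by
      intro u hu
      have hu0 : u ∈ up B 0 (A ++ a :: b :: C) 0 := by
        rw [up_eq]
        exact hu
      have huw : u ∈ Bw R (up B 0 (A ++ a :: b :: C)) ++ e := by
        apply List.mem_append_left
        unfold Bw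
        exact List.mem_flatMap.2 ⟨0, h0R, List.mem_append_left _ hu0⟩
      rcases G'.ct u huw (G'.sf 0 u hu0) with h | h | h | h
      · exact Or.inl (Or.inl h)
      · exact Or.inl (Or.inr (Or.inl h))
      · exact Or.inl (Or.inr (Or.inr h))
      · rcases hc.lo u h with ⟨d, hd, h5⟩ | h5
        · exfalso
          have c1 := G'.li d hd 0 h0R
          have c2 := List.count_pos_iff.2 hu0
          have h6 : ¬ (0 = 1 ∨ 0 = d + 2) := by omega
          rw [h5, c1, if_neg h6] at c2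
          exact absurd c2 (lt_irrefl 0)
        · exact Or.inr ⟨h, h5.1, h5.2.1⟩
    have hma : a ∈ A ++ a :: b :: C := List.mem_append_right _ List.mem_cons_self
    have hmb : b ∈ A ++ a :: b :: C :=
      List.mem_append_right _ (List.mem_cons_of_mem _ List.mem_cons_self)
    have hmw : ∀ u ∈ A ++ a :: b :: C, u ∈ Bw R (up B 0 (A ++ a :: b :: C)) ++ e := by
      intro u hu
      apply List.mem_append_left
      unfold Bw
      refine List.mem_flatMap.2 ⟨0, h0R, List.mem_append_left _ ?_⟩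
      rw [up_eq]
      exact hu
    have hB1 : up B 0 (A ++ a :: b :: C) 1 = B 1 := Pool.Agent.MWFE.H76.up_ne _ _ _ _ one_ne_zero
    have hmul : ∀ d ∈ B 1, 2 ≤ (Bw R (up B 0 (A ++ a :: b :: C)) ++ e).count d := by
      intro d hd
      apply G'.mu d
      · apply List.mem_append_left
        unfold Bw
        refine List.mem_flatMap.2 ⟨1, h1R, List.mem_append_left _ ?_⟩
        rw [hB1]
        exact hd
      · apply G'.sf 1 d
        rw [hB1]
        exact hd
    have hx1 : (0 : ℕ) ∈ B 1 := List.count_pos_iff.1 (by rw [G.x1]; exact one_pos)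
    have hy1 : (3 : ℕ) ∈ B 1 := List.count_pos_iff.1 (by rw [G.y1]; exact one_pos)
    -- the two cases
    have key1 : (a ∈ B 1 ∧ b ∈ B 1) → RR β (Bw R (up B 0 (A ++ a :: b :: C)) ++ e)
        (Bw R (up B 0 (A ++ b :: a :: C)) ++ e) := by
      rintro ⟨k1, k2⟩
      have := (lcf β hz.ff hz.zz (Bw Ra B ++ A) (C ++ (3 * 0 + 2) :: Bw Rb B) (B 1)
        ((3 * 1 + 2) :: (Bw Rc B ++ e)) a b k1 k2).1
      rw [← ew, ← ew] at this
      exact this hmul
    have key2 : ((a = 3 * m + 1 ∨ (a % 3 = 0 ∧ 6 ≤ a)) ∧ (b = 3 * m + 1 ∨ (b % 3 = 0 ∧ 6 ≤ b))) →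
        RR β (Bw R (up B 0 (A ++ a :: b :: C)) ++ e)
        (Bw R (up B 0 (A ++ b :: a :: C)) ++ e) := by
      rintro ⟨k1, k2⟩
      have q1 := hwz m R c _ e G'.toBz a (hmw a hma) k1
      have q2 := hwz m R c _ e G'.toBz b (hmw b hmb) k2
      rw [ew] at q1 q2 ⊢
      rw [ew A C b a]
      exact hhx n β hz _ _ a b q1 q2
    have la := hle a hma
    have lb := hle b hmb
    rcases la with la | la
    · rcases lb with lb | lb
      · exfalso
        exact hP ⟨decide_eq_true la, decide_eq_true lb⟩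
      · rcases la with la | la | la
        · exact key1 ⟨la ▸ hx1, G.fu b lb.1⟩
        · exact key1 ⟨la ▸ hy1, G.fu b lb.1⟩
        · exact key2 ⟨Or.inl la, Or.inr lb.2⟩
    · rcases lb with lb | lb
      · rcases lb with lb | lb | lb
        · exact key1 ⟨G.fu a la.1, lb ▸ hx1⟩
        · exact key1 ⟨G.fu a la.1, lb ▸ hy1⟩
        · exact key2 ⟨Or.inr la.2, Or.inl lb⟩
      · exact key2 ⟨Or.inr la.2, Or.inr lb.2⟩
  · have : up B 0 (B 0) = B := up_self B 0
    change RR β (Bw R B ++ e) (Bw R (up B 0 (B 0)) ++ e)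
    rw [this]
    exact RR.refl _

end Pool.Agent.MWFE.H90
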